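import Mathlib

namespace Pool.Agent.J6H56.QStack

open scoped IntermediateField.algebraAdjoinAdjoin in
/-- There is a ring homomorphism `ℂ → ℂ[ε]` lifting the identity which is not the inclusion, that
is, a nonzero derivation of `ℂ`. -/
theorem exists_twist : ∃ (φ : ℂ →+* TrivSqZeroExt ℂ ℂ) (l : ℂ),
    (∀ c, (φ c).fst = c) ∧ (φ l).snd ≠ 0 := by
  obtain ⟨s, hs⟩ := exists_isTranscendenceBasis ℚ ℂ
  have hne : Nonempty s := by
    rw [← Cardinal.mk_ne_zero_iff]
    have h1 := IsAlgClosed.cardinal_eq_cardinal_transcendence_basis_of_aleph0_lt (R := ℚ) (K := ℂ)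
      (Subtype.val : s → ℂ) hs (by simp) (by simp [Cardinal.aleph0_lt_continuum])
    intro h0
    rw [h0] at h1
    simp [Cardinal.continuum_ne_zero] at h1
  obtain ⟨b⟩ := hne
  have hb := hs.1
  set v : s → ℂ := Subtype.val with hv
  have h1 : Algebra.FormallySmooth (Algebra.adjoin ℚ (Set.range v))
      (IntermediateField.adjoin ℚ (Set.range v)) :=
    .of_isLocalization (nonZeroDivisors _)
  have h2 : Algebra.IsAlgebraic (IntermediateField.adjoin ℚ (Set.range v)) ℂ :=
    hs.isAlgebraic_field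
  have h3 : Algebra.IsSeparable (IntermediateField.adjoin ℚ (Set.range v)) ℂ := inferInstance
  have h4 : Algebra.FormallyEtale (IntermediateField.adjoin ℚ (Set.range v)) ℂ :=
    Algebra.FormallyEtale.of_isSeparable _ ℂ
  have h5 : Algebra.FormallySmooth (Algebra.adjoin ℚ (Set.range v)) ℂ :=
    .comp _ (IntermediateField.adjoin ℚ (Set.range v)) _
  -- the twisted algebra structure
  let t : Algebra.adjoin ℚ (Set.range v) →ₐ[ℚ] TrivSqZeroExt ℂ ℂ :=
    (MvPolynomial.aeval (fun i : s => TrivSqZeroExt.inl (v i) +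
      if i = b then TrivSqZeroExt.inr 1 else 0)).comp hb.aevalEquiv.symm.toAlgHom
  have ht : ∀ x : Algebra.adjoin ℚ (Set.range v), (t x).fst = (x : ℂ) := by
    intro x
    obtain ⟨p, rfl⟩ := hb.aevalEquiv.surjective x
    have e1 : t (hb.aevalEquiv p) = MvPolynomial.aeval (fun i : s => TrivSqZeroExt.inl (v i) +
      if i = b then TrivSqZeroExt.inr 1 else 0) p := by
      simp [t]
    rw [e1, hb.aevalEquiv_apply_coe]
    have e2 : (TrivSqZeroExt.fstHom ℚ ℂ ℂ).comp (MvPolynomial.aeval (fun i : s =>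
        (TrivSqZeroExt.inl (v i) + if i = b then TrivSqZeroExt.inr 1 else 0 :
          TrivSqZeroExt ℂ ℂ))) = MvPolynomial.aeval v := by
      apply MvPolynomial.algHom_ext
      intro i
      by_cases h : i = b <;> simp [h]
    exact DFunLike.congr_fun e2 p
  let _ : Algebra (Algebra.adjoin ℚ (Set.range v)) (TrivSqZeroExt ℂ ℂ) := t.toRingHom.toAlgebra
  let g : TrivSqZeroExt ℂ ℂ →ₐ[Algebra.adjoin ℚ (Set.range v)] ℂ :=
    { TrivSqZeroExt.fstHom ℚ ℂ ℂ with
      commutes' := fun x => ht x }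
  have hg : Function.Surjective g := fun x => ⟨TrivSqZeroExt.inl x, rfl⟩
  have hg' : IsNilpotent (RingHom.ker g) := by
    refine ⟨2, ?_⟩
    have e : RingHom.ker g * RingHom.ker g = ⊥ := by
      rw [eq_bot_iff, Ideal.mul_le]
      intro x hx y hy
      have hx' : x.fst = 0 := hx
      have hy' : y.fst = 0 := hy
      rw [Ideal.mem_bot]
      ext <;> simp [hx', hy']
    exact (pow_two (RingHom.ker g)).trans e
  let φ := Algebra.FormallySmooth.liftOfSurjective
    (AlgHom.id (Algebra.adjoin ℚ (Set.range v)) ℂ) g hg hg'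
  refine ⟨φ.toRingHom, v b, ?_, ?_⟩
  · intro c
    exact Algebra.FormallySmooth.liftOfSurjective_apply
      (AlgHom.id (Algebra.adjoin ℚ (Set.range v)) ℂ) g hg hg' c
  · have e1 : φ (v b) = t ⟨v b, Algebra.subset_adjoin ⟨b, rfl⟩⟩ :=
      φ.commutes ⟨v b, Algebra.subset_adjoin ⟨b, rfl⟩⟩
    have e2 : (⟨v b, Algebra.subset_adjoin ⟨b, rfl⟩⟩ : Algebra.adjoin ℚ (Set.range v)) =
        hb.aevalEquiv (MvPolynomial.X b) := by
      apply Subtype.ext
      simp
    have e3 : t ⟨v b, Algebra.subset_adjoin ⟨b, rfl⟩⟩ =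
        TrivSqZeroExt.inl (v b) + TrivSqZeroExt.inr 1 := by
      rw [e2]
      simp [t]
    change (φ (v b)).snd ≠ 0
    rw [e1, e3]
    simp

end Pool.Agent.J6H56.QStack
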