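import Mathlib

namespace Pool.Agent.J6H56.QStack

open MvPolynomial

/-- The equation `x y (x - y) (x - l y)` of four lines through the origin of the plane, with
cross-ratio `l`. -/
noncomputable def fourLinesEq (l : ℂ) : MvPolynomial (Fin 2) ℂ :=
  X 0 * X 1 * (X 0 - X 1) * (X 0 - C l * X 1)

/-- The coordinate ring `ℂ[x, y] / (x y (x - y) (x - l y))` of four lines through the origin of
the plane. -/
abbrev FourLines (l : ℂ) : Type :=
  MvPolynomial (Fin 2) ℂ ⧸ Ideal.span {fourLinesEq l}

/-- restriction to the parametrized line `t ↦ (u t, v t)` -/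
noncomputable def lineEval (u v : ℂ) : MvPolynomial (Fin 2) ℂ →ₐ[ℂ] Polynomial ℂ :=
  aeval ![Polynomial.C u * Polynomial.X, Polynomial.C v * Polynomial.X]

lemma lineEval_X0 (u v : ℂ) : lineEval u v (X 0) = Polynomial.C u * Polynomial.X := by
  simp [lineEval]

lemma lineEval_X1 (u v : ℂ) : lineEval u v (X 1) = Polynomial.C v * Polynomial.X := by
  simp [lineEval]

lemma lineEval_C (u v c : ℂ) : lineEval u v (C c) = Polynomial.C c := by
  simp [lineEval]

lemma coeff_zero_lineEval (u v : ℂ) (f : MvPolynomial (Fin 2) ℂ) :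
    (lineEval u v f).coeff 0 = coeff 0 f := by
  induction f using MvPolynomial.induction_on with
  | C a => simp [lineEval_C]
  | add p q hp hq => simp [hp, hq]
  | mul_X p i hp =>
    rw [map_mul]
    fin_cases i
    · simp [lineEval_X0, coeff_mul_X']
    · simp [lineEval_X1, coeff_mul_X']

lemma coeff_one_lineEval (u v : ℂ) (f : MvPolynomial (Fin 2) ℂ) :
    (lineEval u v f).coeff 1 = u * coeff (Finsupp.single 0 1) f +
      v * coeff (Finsupp.single 1 1) f := by
  induction f using MvPolynomial.induction_on with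
  | C a =>
    have h1 : ∀ i : Fin 2, (0 : Fin 2 →₀ ℕ) ≠ Finsupp.single i 1 := fun i =>
      (Finsupp.single_ne_zero.mpr one_ne_zero).symm
    rw [lineEval_C, Polynomial.coeff_C, coeff_C, coeff_C, if_neg (h1 0), if_neg (h1 1)]
    simp
  | add p q hp hq =>
    simp only [map_add, Polynomial.coeff_add, hp, hq, coeff_add]
    ring
  | mul_X p i hp =>
    have h0 := coeff_zero_lineEval u v p
    rw [map_mul]
    fin_cases i
    · simp only [Fin.zero_eta, Fin.isValue, lineEval_X0]
      rw [← mul_assoc, Polynomial.coeff_mul_X, mul_comm (lineEval u v p), Polynomial.coeff_C_mul, h0,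
        coeff_mul_X', coeff_mul_X']
      simp
    · simp only [Fin.mk_one, Fin.isValue, lineEval_X1]
      rw [← mul_assoc, Polynomial.coeff_mul_X, mul_comm (lineEval u v p), Polynomial.coeff_C_mul, h0,
        coeff_mul_X', coeff_mul_X']
      simp

theorem no_lift (l : ℂ) (δ : ℂ → ℂ) (h0 : l ≠ 0) (h1 : l ≠ 1) (D : FourLines l → FourLines l)
    (hD0 : D 0 = 0)
    (hadd : ∀ a b, D (a + b) = D a + D b) (hmul : ∀ a b, D (a * b) = a * D b + b * D a)
    (hC : ∀ c : ℂ, D (algebraMap ℂ _ c) = algebraMap ℂ _ (δ c)) : δ l = 0 := by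
  set π : MvPolynomial (Fin 2) ℂ →+* FourLines l := Ideal.Quotient.mk _ with hπ
  have hsurj : Function.Surjective π := Ideal.Quotient.mk_surjective
  have hq : π (fourLinesEq l) = 0 := by
    rw [hπ, Ideal.Quotient.eq_zero_iff_mem]
    exact Ideal.mem_span_singleton_self _
  have key : ∀ (u v : ℂ) (f g r : MvPolynomial (Fin 2) ℂ), f * g = fourLinesEq l →
      lineEval u v f = 0 → lineEval u v g ≠ 0 → π r = D (π f) → lineEval u v r = 0 := by
    intro u v f g r hfg hf hg hr
    obtain ⟨s, hs⟩ := hsurj (D (π g))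
    have h2 : π (f * s + g * r) = 0 := by
      rw [map_add, map_mul, map_mul, hs, hr, ← hmul, ← map_mul, hfg, hq, hD0]
    rw [hπ, Ideal.Quotient.eq_zero_iff_mem, Ideal.mem_span_singleton] at h2
    obtain ⟨w, hw⟩ := h2
    have h3 := congr_arg (lineEval u v) hw
    rw [← hfg, map_add, map_mul, map_mul, map_mul, map_mul, hf, zero_mul, zero_mul, zero_mul,
      zero_add] at h3
    exact (mul_eq_zero.mp h3).resolve_left hg
  obtain ⟨a, ha⟩ := hsurj (D (π (X 0)))
  obtain ⟨b, hb⟩ := hsurj (D (π (X 1)))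
  have hneg : ∀ x, D (-x) = - D x := by
    intro x
    have := hadd x (-x)
    rw [add_neg_cancel, hD0] at this
    exact (neg_eq_of_add_eq_zero_right this.symm).symm
  have e1 := key 0 1 (X 0) (X 1 * (X 0 - X 1) * (X 0 - C l * X 1)) a
    (by simp only [fourLinesEq]; ring) (by simp [lineEval_X0]) (by
      simp [lineEval_X0, lineEval_X1, lineEval_C, h0]) ha
  have e2 := key 1 0 (X 1) (X 0 * (X 0 - X 1) * (X 0 - C l * X 1)) b
    (by simp only [fourLinesEq]; ring) (by simp [lineEval_X1]) (by
      simp [lineEval_X0, lineEval_X1, lineEval_C]) hb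
  have e3 := key 1 1 (X 0 - X 1) (X 0 * X 1 * (X 0 - C l * X 1)) (a - b)
    (by simp only [fourLinesEq]; ring) (by simp [lineEval_X0, lineEval_X1]) (by
      simp only [map_mul, map_sub, lineEval_X0, lineEval_X1, lineEval_C]
      have : (Polynomial.C (1 : ℂ) * Polynomial.X - Polynomial.C l * (Polynomial.C 1 * Polynomial.X))
        = Polynomial.C (1 - l) * Polynomial.X := by simp; ring
      rw [this]
      refine mul_ne_zero (mul_ne_zero ?_ ?_) (mul_ne_zero ?_ Polynomial.X_ne_zero)
      · simp
      · simp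
      · rw [Polynomial.C_ne_zero]
        exact sub_ne_zero.mpr h1.symm) (by
      rw [map_sub, map_sub, ha, hb, sub_eq_add_neg, sub_eq_add_neg, hadd, hneg])
  have e4 := key l 1 (X 0 - C l * X 1) (X 0 * X 1 * (X 0 - X 1)) (a - C l * b - C (δ l) * X 1)
    (by simp only [fourLinesEq]; ring) (by simp [lineEval_X0, lineEval_X1, lineEval_C]) (by
      simp only [map_mul, map_sub, lineEval_X0, lineEval_X1, lineEval_C]
      have : (Polynomial.C l * Polynomial.X - Polynomial.C (1 : ℂ) * Polynomial.X)
        = Polynomial.C (l - 1) * Polynomial.X := by simp; ring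
      rw [this]
      refine mul_ne_zero (mul_ne_zero ?_ ?_) (mul_ne_zero ?_ Polynomial.X_ne_zero)
      · simp [h0]
      · simp
      · rw [Polynomial.C_ne_zero]
        exact sub_ne_zero.mpr h1) (by
      have hCl : ∀ c : ℂ, π (C c) = algebraMap ℂ _ c := fun c => rfl
      rw [map_sub, map_sub, map_sub, map_mul, map_mul, map_mul, ha, hb, hCl, hCl,
        sub_eq_add_neg (π (X 0)), hadd, hneg, hmul, hC]
      ring)
  have f1 := congr_arg (fun p => Polynomial.coeff p 1) e1
  have f2 := congr_arg (fun p => Polynomial.coeff p 1) e2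
  rw [map_sub, sub_eq_zero] at e3
  have f3 := congr_arg (fun p => Polynomial.coeff p 1) e3
  rw [map_sub, map_sub, map_mul, map_mul, lineEval_C, lineEval_C, lineEval_X1] at e4
  have f4 := congr_arg (fun p => Polynomial.coeff p 1) e4
  simp only [coeff_one_lineEval, Polynomial.coeff_zero, Polynomial.coeff_sub,
    Polynomial.coeff_C_mul, Polynomial.coeff_X_one] at f1 f2 f3 f4
  linear_combination (-1 : ℂ) * f4 + l * f3 + (l - l * l) * f2 + (1 - l) * f1

end Pool.Agent.J6H56.QStack
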