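import Mathlib

open CategoryTheory Limits AlgebraicGeometry TopologicalSpace Opposite

namespace Pool.Agent.J6H56.QStack

universe u

/-- The ring `𝒪(U)` of functions on the open subset `U` of the scheme `X`. -/
abbrev Fn (X : Scheme.{u}) (U : X.Opens) : Type u := Γ(X, U)

/-- Restriction of a function on the open set `U` of the scheme `X` to a smaller open set `V`. -/
noncomputable def res {X : Scheme.{u}} {U V : X.Opens} (h : V ≤ U) (a : Fn X U) : Fn X V :=
  X.presheaf.map (homOfLE h).op a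

/-- Pullback of a function on the open set `U` of `Y` along a morphism `f : X ⟶ Y`. -/
noncomputable def pull {X Y : Scheme.{u}} (f : X ⟶ Y) {U : Y.Opens} (a : Fn Y U) :
    Fn X (f ⁻¹ᵁ U) :=
  f.app U a

section

variable {X Y : Scheme.{u}} {U V W : X.Opens}

lemma res_mul (h : V ≤ U) (a b : Fn X U) : res h (a * b) = res h a * res h b := map_mul _ _ _

lemma res_one (h : V ≤ U) : res h (1 : Fn X U) = 1 := map_one _

lemma res_pow (h : V ≤ U) (a : Fn X U) (m : ℕ) : res h (a ^ m) = res h a ^ m := map_pow _ _ _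

lemma res_isUnit (h : V ≤ U) {a : Fn X U} (ha : IsUnit a) : IsUnit (res h a) :=
  ha.map (X.presheaf.map (homOfLE h).op).hom

lemma pull_mul (f : X ⟶ Y) {U : Y.Opens} (a b : Fn Y U) : pull f (a * b) = pull f a * pull f b :=
  map_mul _ _ _

lemma pull_one (f : X ⟶ Y) {U : Y.Opens} : pull f (1 : Fn Y U) = 1 := map_one _

lemma pull_isUnit (f : X ⟶ Y) {U : Y.Opens} {a : Fn Y U} (ha : IsUnit a) : IsUnit (pull f a) :=
  ha.map (f.app U).hom

lemma pull_pow (f : X ⟶ Y) {U : Y.Opens} (a : Fn Y U) (m : ℕ) : pull f (a ^ m) = pull f a ^ m :=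
  map_pow _ _ _

lemma res_res (h : V ≤ U) (h' : W ≤ V) (a : Fn X U) :
    res h' (res h a) = res (h'.trans h) a := by
  simp only [res]
  rw [← CommRingCat.comp_apply, ← Functor.map_comp]
  rfl

lemma res_self (h : U ≤ U) (a : Fn X U) : res h a = a := by
  simp [res]

lemma pull_res (f : X ⟶ Y) {U V : Y.Opens} (h : V ≤ U) (a : Fn Y U) :
    pull f (res h a) = res (X := X) (U := f ⁻¹ᵁ U) (V := f ⁻¹ᵁ V) (fun _ hx => h hx) (pull f a) := by
  simp only [res, pull]
  rw [← CommRingCat.comp_apply, ← CommRingCat.comp_apply, f.naturality]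
  rfl

lemma res_pull_res (f : X ⟶ Y) {U V : Y.Opens} (h : V ≤ U) {W : X.Opens} (hW : W ≤ f ⁻¹ᵁ V)
    (a : Fn Y U) : res hW (pull f (res h a)) =
      res (U := f ⁻¹ᵁ U) (V := W) (fun _ hx => h (hW hx)) (pull f a) := by
  rw [pull_res]
  exact res_res _ _ _

end

/-- An invertible sheaf (line bundle) on a scheme `X`, presented by transition functions:
an open cover `(U i)` of `X` together with functions `g i j` on `U i ∩ U j` such that `g i i = 1`
and `g i j * g j k = g i k` on every open set `V` contained in `U i`, `U j` and `U k` (so every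
`g i j` is a unit). -/
structure LineBundle (X : Scheme.{u}) where
  /-- the index set of the cover -/
  I : Type u
  /-- the open cover -/
  U : I → X.Opens
  covers : ∀ x : X, ∃ i, x ∈ U i
  /-- the transition functions -/
  g : ∀ i j, Fn X (U i ⊓ U j)
  g_self : ∀ i, g i i = 1
  cocycle : ∀ (i j k : I) (V : X.Opens) (hij : V ≤ U i ⊓ U j) (hjk : V ≤ U j ⊓ U k)
    (hik : V ≤ U i ⊓ U k), res hij (g i j) * res hjk (g j k) = res hik (g i k)

namespace LineBundle

variable {X Y Z : Scheme.{u}}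

section

variable (f : X ⟶ Y) (L : LineBundle Y)

lemma pullback_g_self (i : L.I) : pull f (L.g i i) = 1 := by
  rw [L.g_self i]
  exact pull_one f

lemma pullback_cocycle (i j k : L.I) (V : X.Opens) (hij : V ≤ f ⁻¹ᵁ L.U i ⊓ f ⁻¹ᵁ L.U j)
    (hjk : V ≤ f ⁻¹ᵁ L.U j ⊓ f ⁻¹ᵁ L.U k) (hik : V ≤ f ⁻¹ᵁ L.U i ⊓ f ⁻¹ᵁ L.U k) :
    res hij (pull f (L.g i j)) * res hjk (pull f (L.g j k)) = res hik (pull f (L.g i k)) := by
  have hV : V ≤ f ⁻¹ᵁ (L.U i ⊓ L.U j ⊓ L.U k) := fun x hx => ⟨hij hx, (hjk hx).2⟩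
  have h := congr_arg (fun a => res hV (pull f a)) (L.cocycle i j k (L.U i ⊓ L.U j ⊓ L.U k)
    inf_le_left (inf_le_inf_right _ inf_le_right) (inf_le_inf_right _ inf_le_left))
  simp only [pull_mul, res_mul, res_pull_res] at h
  exact h

end

/-- The pullback `f^* L` of a line bundle along a morphism of schemes `f : X ⟶ Y`. -/
noncomputable def pullback (f : X ⟶ Y) (L : LineBundle Y) : LineBundle X where
  I := L.I
  U i := f ⁻¹ᵁ (L.U i)
  covers x := L.covers (f x)
  g i j := pull f (L.g i j)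
  g_self i := pullback_g_self f L i
  cocycle i j k V hij hjk hik := pullback_cocycle f L i j k V hij hjk hik

lemma inf_inf_le_left (a b c d : X.Opens) : a ⊓ b ⊓ (c ⊓ d) ≤ a ⊓ c :=
  inf_le_inf inf_le_left inf_le_left

lemma inf_inf_le_right (a b c d : X.Opens) : a ⊓ b ⊓ (c ⊓ d) ≤ b ⊓ d :=
  inf_le_inf inf_le_right inf_le_right

section

variable (L M : LineBundle X)

/-- transition functions of the tensor product: the products of the transition functions -/
noncomputable def tensorFn (i j : L.I × M.I) :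
    Fn X (L.U i.1 ⊓ M.U i.2 ⊓ (L.U j.1 ⊓ M.U j.2)) :=
  res (inf_inf_le_left _ _ _ _) (L.g i.1 j.1) * res (inf_inf_le_right _ _ _ _) (M.g i.2 j.2)

lemma tensor_covers (x : X) : ∃ i : L.I × M.I, x ∈ L.U i.1 ⊓ M.U i.2 := by
  obtain ⟨i, hi⟩ := L.covers x
  obtain ⟨j, hj⟩ := M.covers x
  exact ⟨(i, j), hi, hj⟩

lemma tensor_g_self (i : L.I × M.I) : tensorFn L M i i = 1 := by
  rw [tensorFn, L.g_self, M.g_self, res_one, res_one, one_mul]

lemma res_tensorFn {V : X.Opens} (i j : L.I × M.I)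
    (h : V ≤ L.U i.1 ⊓ M.U i.2 ⊓ (L.U j.1 ⊓ M.U j.2)) :
    res h (tensorFn L M i j) =
      res (h.trans (inf_inf_le_left _ _ _ _)) (L.g i.1 j.1) *
      res (h.trans (inf_inf_le_right _ _ _ _)) (M.g i.2 j.2) := by
  rw [tensorFn, res_mul, res_res, res_res]

lemma tensor_cocycle (i j k : L.I × M.I) (V : X.Opens)
    (hij : V ≤ L.U i.1 ⊓ M.U i.2 ⊓ (L.U j.1 ⊓ M.U j.2))
    (hjk : V ≤ L.U j.1 ⊓ M.U j.2 ⊓ (L.U k.1 ⊓ M.U k.2))
    (hik : V ≤ L.U i.1 ⊓ M.U i.2 ⊓ (L.U k.1 ⊓ M.U k.2)) :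
    res hij (tensorFn L M i j) * res hjk (tensorFn L M j k) = res hik (tensorFn L M i k) := by
  have h1 := L.cocycle i.1 j.1 k.1 V (hij.trans (inf_inf_le_left _ _ _ _))
    (hjk.trans (inf_inf_le_left _ _ _ _)) (hik.trans (inf_inf_le_left _ _ _ _))
  have h2 := M.cocycle i.2 j.2 k.2 V (hij.trans (inf_inf_le_right _ _ _ _))
    (hjk.trans (inf_inf_le_right _ _ _ _)) (hik.trans (inf_inf_le_right _ _ _ _))
  rw [res_tensorFn, res_tensorFn, res_tensorFn, ← h1, ← h2]
  ring

end

/-- The tensor product `L ⊗ M` of two line bundles. -/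
noncomputable def tensor (L M : LineBundle X) : LineBundle X where
  I := L.I × M.I
  U i := L.U i.1 ⊓ M.U i.2
  covers x := tensor_covers L M x
  g i j := tensorFn L M i j
  g_self i := tensor_g_self L M i
  cocycle i j k V hij hjk hik := tensor_cocycle L M i j k V hij hjk hik

/-- The trivial line bundle `𝒪_X`. -/
noncomputable def trivial (X : Scheme.{u}) : LineBundle X where
  I := PUnit
  U _ := ⊤
  covers _ := ⟨PUnit.unit, Set.mem_univ _⟩
  g _ _ := 1
  g_self _ := rfl
  cocycle _ _ _ V h h' h'' := by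
    change res h 1 * res h' 1 = res h'' 1
    rw [res_one, one_mul]

/-- Two line bundles are isomorphic if, over a common refinement `(W k)` of the two open covers,
their transition functions differ by a family of invertible functions `h k` on `W k`:
`L.g (a k) (a l) * h l = h k * M.g (b k) (b l)` on every open set contained in `W k ∩ W l`. -/
def Iso (L M : LineBundle X) : Prop :=
  ∃ (K : Type u) (W : K → X.Opens) (a : K → L.I) (b : K → M.I) (h : ∀ k, Fn X (W k)),
    (∀ x : X, ∃ k, x ∈ W k) ∧ (∀ k, W k ≤ L.U (a k)) ∧ (∀ k, W k ≤ M.U (b k)) ∧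
    (∀ k, IsUnit (h k)) ∧
    ∀ (k l : K) (V : X.Opens) (hk : V ≤ W k) (hl : V ≤ W l) (hL : V ≤ L.U (a k) ⊓ L.U (a l))
      (hM : V ≤ M.U (b k) ⊓ M.U (b l)),
      res hL (L.g (a k) (a l)) * res hl (h l) = res hk (h k) * res hM (M.g (b k) (b l))

lemma g_self' (L : LineBundle X) {V : X.Opens} (i : L.I) (hi : V ≤ L.U i ⊓ L.U i) :
    res (V := V) hi (L.g i i) = 1 := by
  rw [L.g_self, res_one]

lemma isUnit_g (L : LineBundle X) {V : X.Opens} (i j : L.I) (h : V ≤ L.U i ⊓ L.U j) :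
    IsUnit (res (V := V) h (L.g i j)) := by
  have h1 := L.cocycle i j i V h (h.trans (inf_comm _ _).le) (le_inf (h.trans inf_le_left)
    (h.trans inf_le_left))
  rw [L.g_self'] at h1
  exact IsUnit.of_mul_eq_one _ h1

lemma Iso.refl (L : LineBundle X) : L.Iso L :=
  ⟨L.I, L.U, id, id, fun _ => 1, L.covers, fun _ => le_rfl, fun _ => le_rfl, fun _ => isUnit_one,
    fun k l V hk hl h1 h2 => by rw [res_one, res_one, mul_one, one_mul]⟩

lemma Iso.symm {L M : LineBundle X} (e : L.Iso M) : M.Iso L := by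
  obtain ⟨K, W, a, b, h, hW, ha, hb, hu, hc⟩ := e
  choose h' hh' using fun k => (hu k).exists_right_inv
  refine ⟨K, W, b, a, h', hW, hb, ha, fun k => IsUnit.of_mul_eq_one _ (by rw [mul_comm]; exact hh' k), ?_⟩
  intro k l V hk hl hM hL
  have h1 := hc k l V hk hl hL hM
  have h2 := congr_arg (fun y => res hk y) (hh' k)
  have h3 := congr_arg (fun y => res hl y) (hh' l)
  simp only [res_mul, res_one] at h2 h3
  linear_combination (- (res hl (h' l)) * (res hk (h' k))) * h1
    + (res hk (h' k)) * res hL (L.g (a k) (a l)) * h3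
    - res hM (M.g (b k) (b l)) * (res hl (h' l)) * h2

lemma Iso.trans {L M N : LineBundle X} (e : L.Iso M) (e' : M.Iso N) : L.Iso N := by
  obtain ⟨K, W, a, b, h, hW, ha, hb, hu, hc⟩ := e
  obtain ⟨K', W', a', b', h', hW', ha', hb', hu', hc'⟩ := e'
  refine ⟨K × K', fun k => W k.1 ⊓ W' k.2, fun k => a k.1, fun k => b' k.2,
    fun k => res inf_le_left (h k.1) *
      res (inf_le_inf (hb k.1) (ha' k.2)) (M.g (b k.1) (a' k.2)) * res inf_le_right (h' k.2),
    ?_, fun k => inf_le_left.trans (ha _), fun k => inf_le_right.trans (hb' _), ?_, ?_⟩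
  · intro x
    obtain ⟨i, hi⟩ := hW x
    obtain ⟨j, hj⟩ := hW' x
    exact ⟨(i, j), hi, hj⟩
  · intro k
    exact ((res_isUnit _ (hu _)).mul (M.isUnit_g _ _ _)).mul (res_isUnit _ (hu' _))
  · rintro ⟨k, k'⟩ ⟨l, l'⟩ V hk hl hL hN
    have hk1 : V ≤ W k := hk.trans inf_le_left
    have hk2 : V ≤ W' k' := hk.trans inf_le_right
    have hl1 : V ≤ W l := hl.trans inf_le_left
    have hl2 : V ≤ W' l' := hl.trans inf_le_right
    have h1 := hc k l V hk1 hl1 hL (le_inf (hk1.trans (hb k)) (hl1.trans (hb l)))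
    have h2 := hc' k' l' V hk2 hl2 (le_inf (hk2.trans (ha' k')) (hl2.trans (ha' l'))) hN
    have c1 := M.cocycle (b k) (b l) (a' l') V (le_inf (hk1.trans (hb k)) (hl1.trans (hb l)))
      (le_inf (hl1.trans (hb l)) (hl2.trans (ha' l')))
      (le_inf (hk1.trans (hb k)) (hl2.trans (ha' l')))
    have c2 := M.cocycle (b k) (a' k') (a' l') V (le_inf (hk1.trans (hb k)) (hk2.trans (ha' k')))
      (le_inf (hk2.trans (ha' k')) (hl2.trans (ha' l')))
      (le_inf (hk1.trans (hb k)) (hl2.trans (ha' l')))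
    simp only [res_mul, res_res]
    linear_combination (res _ (M.g (b l) (a' l')) * res _ (h' l')) * h1
      + res _ (h k) * res _ (h' l') * c1 - res _ (h k) * res _ (h' l') * c2
      + res _ (h k) * res _ (M.g (b k) (a' k')) * h2

lemma res_tensor_g (L M : LineBundle X) {V : X.Opens} (i j : L.I) (i' j' : M.I)
    (h : V ≤ L.U i ⊓ M.U i' ⊓ (L.U j ⊓ M.U j')) :
    res (U := L.U i ⊓ M.U i' ⊓ (L.U j ⊓ M.U j')) h ((L.tensor M).g (i, i') (j, j')) =
      res (h.trans (inf_inf_le_left _ _ _ _)) (L.g i j) *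
      res (h.trans (inf_inf_le_right _ _ _ _)) (M.g i' j') :=
  res_tensorFn L M (i, i') (j, j') h

lemma res_trivial_g {V : X.Opens} (i j : PUnit)
    (h : V ≤ ⊤ ⊓ ⊤) :
    res (U := ⊤ ⊓ ⊤) h ((trivial X).g i j) = 1 :=
  res_one h

lemma Iso.tensor {L L' M M' : LineBundle X} (e : L.Iso L') (e' : M.Iso M') :
    (L.tensor M).Iso (L'.tensor M') := by
  obtain ⟨K, W, a, b, h, hW, ha, hb, hu, hc⟩ := e
  obtain ⟨K', W', a', b', h', hW', ha', hb', hu', hc'⟩ := e'
  refine ⟨K × K', fun k => W k.1 ⊓ W' k.2, fun k => (a k.1, a' k.2), fun k => (b k.1, b' k.2),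
    fun k => res inf_le_left (h k.1) * res inf_le_right (h' k.2),
    ?_, fun k => inf_le_inf (ha _) (ha' _), fun k => inf_le_inf (hb _) (hb' _), ?_, ?_⟩
  · intro x
    obtain ⟨i, hi⟩ := hW x
    obtain ⟨j, hj⟩ := hW' x
    exact ⟨(i, j), hi, hj⟩
  · intro k
    exact (res_isUnit _ (hu _)).mul (res_isUnit _ (hu' _))
  · rintro ⟨k, k'⟩ ⟨l, l'⟩ V hk hl hL hM
    have hk1 : V ≤ W k := hk.trans inf_le_left
    have hk2 : V ≤ W' k' := hk.trans inf_le_right
    have hl1 : V ≤ W l := hl.trans inf_le_left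
    have hl2 : V ≤ W' l' := hl.trans inf_le_right
    have h1 := hc k l V hk1 hl1 (le_inf (hk1.trans (ha k)) (hl1.trans (ha l)))
      (le_inf (hk1.trans (hb k)) (hl1.trans (hb l)))
    have h2 := hc' k' l' V hk2 hl2 (le_inf (hk2.trans (ha' k')) (hl2.trans (ha' l')))
      (le_inf (hk2.trans (hb' k')) (hl2.trans (hb' l')))
    have t1 := res_tensor_g L M (V := V) (a k) (a l) (a' k') (a' l') hL
    have t2 := res_tensor_g L' M' (V := V) (b k) (b l) (b' k') (b' l') hM
    refine (congr_arg₂ (· * ·) t1 rfl).trans (Eq.trans ?_ (congr_arg₂ (· * ·) rfl t2).symm)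
    simp only [res_mul, res_res] at h1 h2 ⊢
    linear_combination (res _ (M.g (a' k') (a' l')) * res _ (h' l')) * h1 +
      (res _ (h k) * res _ (L'.g (b k) (b l))) * h2

lemma tensor_assoc_iso (L M N : LineBundle X) :
    ((L.tensor M).tensor N).Iso (L.tensor (M.tensor N)) := by
  refine ⟨L.I × M.I × N.I, fun k => L.U k.1 ⊓ M.U k.2.1 ⊓ N.U k.2.2,
    fun k => ((k.1, k.2.1), k.2.2), fun k => k, fun k => 1, ?_, fun k => le_rfl,
    fun k => (inf_assoc _ _ _).le, fun _ => isUnit_one, ?_⟩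
  · intro x
    obtain ⟨i, hi⟩ := L.covers x
    obtain ⟨j, hj⟩ := M.covers x
    obtain ⟨k, hk⟩ := N.covers x
    exact ⟨(i, j, k), ⟨hi, hj⟩, hk⟩
  · intro k l V hk hl h1 h2
    simp only [res_one, mul_one, one_mul]
    have t1 := res_tensor_g (L.tensor M) N (V := V) (k.1, k.2.1) (l.1, l.2.1) k.2.2 l.2.2 h1
    have t2 := res_tensor_g L (M.tensor N) (V := V) k.1 l.1 k.2 l.2 h2
    have t3 := res_tensor_g L M (V := V) k.1 l.1 k.2.1 l.2.1
      (le_inf (hk.trans inf_le_left) (hl.trans inf_le_left))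
    have t4 := res_tensor_g M N (V := V) k.2.1 l.2.1 k.2.2 l.2.2
      (le_inf (hk.trans (inf_le_inf inf_le_right le_rfl)) (hl.trans (inf_le_inf inf_le_right le_rfl)))
    refine t1.trans (Eq.trans ?_ t2.symm)
    refine (congr_arg₂ (· * ·) t3 rfl).trans (Eq.trans ?_ (congr_arg₂ (· * ·) rfl t4).symm)
    rw [mul_assoc]

lemma tensor_trivial_iso (L : LineBundle X) : (L.tensor (trivial X)).Iso L := by
  refine ⟨L.I, L.U, fun k => (k, PUnit.unit), id, fun k => 1, L.covers,
    fun k => le_inf le_rfl le_top, fun k => le_rfl, fun _ => isUnit_one, ?_⟩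
  intro k l V hk hl h1 h2
  simp only [res_one, mul_one, one_mul, id]
  have t1 := res_tensor_g L (trivial X) (V := V) k l PUnit.unit PUnit.unit h1
  refine t1.trans ?_
  have t2 := res_trivial_g (X := X) (V := V) PUnit.unit PUnit.unit (le_inf le_top le_top)
  exact (congr_arg₂ (· * ·) rfl t2).trans (mul_one _)

lemma Iso.pullback {L M : LineBundle Y} (e : L.Iso M) (f : X ⟶ Y) :
    (L.pullback f).Iso (M.pullback f) := by
  obtain ⟨K, W, a, b, h, hW, ha, hb, hu, hc⟩ := e
  refine ⟨K, fun k => f ⁻¹ᵁ (W k), a, b, fun k => pull f (h k), fun x => hW (f x),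
    fun k _ hx => ha k hx, fun k _ hx => hb k hx, fun k => pull_isUnit f (hu k), ?_⟩
  intro k l V hk hl hL hM
  have hV : V ≤ f ⁻¹ᵁ (W k ⊓ W l) := fun x hx => ⟨hk hx, hl hx⟩
  have h1 := congr_arg (fun y => res hV (pull f y)) (hc k l (W k ⊓ W l) inf_le_left inf_le_right
    (inf_le_inf (ha k) (ha l)) (inf_le_inf (hb k) (hb l)))
  simp only [pull_mul, res_mul, res_pull_res] at h1
  exact h1

lemma pullback_id (L : LineBundle X) : L.pullback (𝟙 X) = L := by
  obtain ⟨I, U, c, g, h1, h2⟩ := L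
  simp only [LineBundle.pullback]
  congr 1

lemma pullback_pullback (L : LineBundle Z) (f : X ⟶ Y) (g : Y ⟶ Z) :
    (L.pullback g).pullback f = L.pullback (f ≫ g) := by
  rfl

lemma pullback_tensor (L M : LineBundle Y) (f : X ⟶ Y) :
    (L.tensor M).pullback f = (L.pullback f).tensor (M.pullback f) := by
  have : ∀ i j : L.I × M.I,
      ((L.tensor M).pullback f).g i j = ((L.pullback f).tensor (M.pullback f)).g i j := by
    intro i j
    change pull f (tensorFn L M i j) = _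
    rw [tensorFn, pull_mul, pull_res, pull_res]
    rfl
  unfold LineBundle.pullback LineBundle.tensor
  congr 1
  funext i j
  exact this i j

lemma pullback_trivial (f : X ⟶ Y) : (trivial Y).pullback f = trivial X := by
  have : ∀ i j : PUnit, ((trivial Y).pullback f).g i j = (trivial X).g i j := by
    intro i j
    exact pull_one f
  unfold LineBundle.pullback trivial
  congr 1
  funext i j
  exact this i j

/-- A global section of the tensor power `L^{⊗ m}`: functions `s i` on `U i` with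
`s i = (g i j)^m * s j` on every open set contained in `U i ∩ U j`. -/
structure PowSection (L : LineBundle X) (m : ℕ) where
  /-- the local functions -/
  s : ∀ i, Fn X (L.U i)
  compat : ∀ (i j : L.I) (V : X.Opens) (hi : V ≤ L.U i) (hj : V ≤ L.U j)
    (hij : V ≤ L.U i ⊓ L.U j), res hi (s i) = (res hij (L.g i j)) ^ m * res hj (s j)

/-- The open set `X_s` of points where a section `s` of `L^{⊗ m}` does not vanish. -/
noncomputable def PowSection.nonvanishing {L : LineBundle X} {m : ℕ} (s : L.PowSection m) :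
    X.Opens :=
  ⨆ i, X.basicOpen (s.s i)

/-- A line bundle `L` on a scheme `X` is ample if `X` is quasi-compact and for every `x ∈ X` there
are `m ≥ 1` and a global section `s` of `L^{⊗ m}` such that `x ∈ X_s` and `X_s` is affine. -/
def IsAmple (L : LineBundle X) : Prop :=
  CompactSpace X ∧ ∀ x : X, ∃ m : ℕ, 1 ≤ m ∧ ∃ s : L.PowSection m,
    x ∈ s.nonvanishing ∧ IsAffineOpen s.nonvanishing

/-- A line bundle `L` on `X` is relatively ample for `f : X ⟶ S` if `f` is quasi-compact and every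
point of `S` has an affine open neighbourhood `V` such that the restriction of `L` to `f⁻¹(V)` is
ample. -/
def IsRelAmple (L : LineBundle X) (f : X ⟶ Y) : Prop :=
  QuasiCompact f ∧ ∀ y : Y, ∃ V : Y.Opens, y ∈ V ∧ IsAffineOpen V ∧
    (L.pullback (f ⁻¹ᵁ V).ι).IsAmple

/-- pullback of sections -/
noncomputable def PowSection.pullback {L : LineBundle Y} {m : ℕ} (s : L.PowSection m) (f : X ⟶ Y) :
    (L.pullback f).PowSection m where
  s i := pull f (s.s i)
  compat i j V hi hj hij := by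
    have hV : V ≤ f ⁻¹ᵁ (L.U i ⊓ L.U j) := fun x hx => ⟨hi hx, hj hx⟩
    have h1 := congr_arg (fun y => res hV (pull f y)) (s.compat i j (L.U i ⊓ L.U j) inf_le_left
      inf_le_right le_rfl)
    simp only [pull_mul, pull_pow, res_mul, res_pow, res_pull_res] at h1
    exact h1

lemma PowSection.nonvanishing_pullback {L : LineBundle Y} {m : ℕ} (s : L.PowSection m)
    (f : X ⟶ Y) : (s.pullback f).nonvanishing = f ⁻¹ᵁ s.nonvanishing := by
  simp only [PowSection.nonvanishing, PowSection.pullback]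
  rw [Scheme.Hom.preimage_iSup]
  refine iSup_congr fun i => ?_
  exact (Scheme.Hom.preimage_basicOpen f (s.s i)).symm

lemma IsAmple.pullback {L : LineBundle Y} (h : L.IsAmple) (f : X ⟶ Y) [IsAffineHom f] :
    (L.pullback f).IsAmple := by
  obtain ⟨h1, h2⟩ := h
  refine ⟨QuasiCompact.compactSpace_of_compactSpace f, fun x => ?_⟩
  obtain ⟨m, hm, s, hs, hs'⟩ := h2 (f x)
  refine ⟨m, hm, s.pullback f, ?_, ?_⟩
  · rw [PowSection.nonvanishing_pullback]
    exact hs
  · rw [PowSection.nonvanishing_pullback]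
    exact hs'.preimage f

lemma IsRelAmple.of_isPullback {X' S' X S : Scheme.{u}} {g : X' ⟶ X} {f' : X' ⟶ S'} {f : X ⟶ S}
    {h : S' ⟶ S} (sq : IsPullback g f' f h) {L : LineBundle X} (hL : L.IsRelAmple f) :
    (L.pullback g).IsRelAmple f' := by
  obtain ⟨h1, h2⟩ := hL
  refine ⟨MorphismProperty.of_isPullback sq h1, fun y => ?_⟩
  obtain ⟨V, hyV, hV, hVa⟩ := h2 (h y)
  obtain ⟨V', hV', hyV', hVV'⟩ := exists_isAffineOpen_mem_and_subset (x := y) (U := h ⁻¹ᵁ V) hyV
  refine ⟨V', hyV', hV', ?_⟩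
  -- the morphism V' → V
  have hr : Set.range (V'.ι ≫ h) ⊆ Set.range V.ι := by
    rw [Scheme.Opens.range_ι]
    rintro _ ⟨x, rfl⟩
    exact hVV' x.2
  let v : (V' : Scheme) ⟶ V := IsOpenImmersion.lift V.ι (V'.ι ≫ h) hr
  have hv : v ≫ V.ι = V'.ι ≫ h := IsOpenImmersion.lift_fac _ _ _
  have hq : Set.range ((f' ⁻¹ᵁ V').ι ≫ g) ⊆ Set.range (f ⁻¹ᵁ V).ι := by
    rw [Scheme.Opens.range_ι]
    rintro _ ⟨x, rfl⟩
    change f (g ((f' ⁻¹ᵁ V').ι x)) ∈ V
    rw [← Scheme.Hom.comp_apply, sq.w, Scheme.Hom.comp_apply]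
    exact hVV' x.2
  let q : ((f' ⁻¹ᵁ V' : X'.Opens) : Scheme) ⟶ (f ⁻¹ᵁ V : X.Opens) :=
    IsOpenImmersion.lift (f ⁻¹ᵁ V).ι ((f' ⁻¹ᵁ V').ι ≫ g) hq
  have hqq : q ≫ (f ⁻¹ᵁ V).ι = (f' ⁻¹ᵁ V').ι ≫ g := IsOpenImmersion.lift_fac _ _ _
  have sq1 := (isPullback_morphismRestrict f' V').flip.paste_horiz sq
  have sq2 := (isPullback_morphismRestrict f V).flip
  rw [← hqq, ← hv] at sq1
  have hcomm : q ≫ (f ∣_ V) = (f' ∣_ V') ≫ v := by
    rw [← cancel_mono V.ι, Category.assoc, morphismRestrict_ι, reassoc_of% hqq, Category.assoc, hv,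
      morphismRestrict_ι_assoc, sq.w]
  have sq3 := IsPullback.of_right sq1 hcomm sq2
  have : IsAffine V := hV
  have : IsAffine V' := hV'
  have hqa : IsAffineHom q :=
    MorphismProperty.of_isPullback (P := @IsAffineHom) sq3.flip inferInstance
  have key : (L.pullback g).pullback (f' ⁻¹ᵁ V').ι = (L.pullback (f ⁻¹ᵁ V).ι).pullback q := by
    rw [pullback_pullback, pullback_pullback, hqq]
  rw [key]
  exact hVa.pullback q

end LineBundle

end Pool.Agent.J6H56.QStack
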