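import Pool.Agent.J6H56.QStack.Retract
import Pool.Agent.J6H56.QStack.Deriv
import Pool.Agent.J6H56.QStack.FourLines

open CategoryTheory Limits AlgebraicGeometry TopologicalSpace Opposite

namespace Pool.Agent.J6H56.QStack

/-- `Spec A` as a scheme over `ℂ`. -/
noncomputable def specC (A : Type) [CommRing A] [Algebra ℂ A] : SchC :=
  Over.mk (Spec.map (CommRingCat.ofHom (algebraMap ℂ A)))

/-- the twisted structure map `ℂ → A[ε]` -/
noncomputable def twist (A : Type) [CommRing A] [Algebra ℂ A] (φ : ℂ →+* TrivSqZeroExt ℂ ℂ)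
    (hφ : ∀ c, (φ c).fst = c) : ℂ →+* TrivSqZeroExt A A where
  toFun c := TrivSqZeroExt.inl (algebraMap ℂ A c) + TrivSqZeroExt.inr (algebraMap ℂ A (φ c).snd)
  map_one' := by simp
  map_mul' a b := by
    refine TrivSqZeroExt.ext ?_ ?_
    · simp only [TrivSqZeroExt.fst_add, TrivSqZeroExt.fst_inl, TrivSqZeroExt.fst_inr,
        TrivSqZeroExt.fst_mul, map_mul, add_zero]
    · simp only [TrivSqZeroExt.snd_add, TrivSqZeroExt.snd_inl, TrivSqZeroExt.snd_inr,
        TrivSqZeroExt.snd_mul, TrivSqZeroExt.fst_add, TrivSqZeroExt.fst_inl, TrivSqZeroExt.fst_inr,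
        map_mul, add_zero, zero_add, hφ, smul_eq_mul, MulOpposite.smul_eq_mul_unop,
        MulOpposite.unop_op, map_add]
  map_zero' := by simp
  map_add' a b := by
    refine TrivSqZeroExt.ext ?_ ?_
    · simp only [TrivSqZeroExt.fst_add, TrivSqZeroExt.fst_inl, TrivSqZeroExt.fst_inr,
        map_add, add_zero]
    · simp only [TrivSqZeroExt.snd_add, TrivSqZeroExt.snd_inl, TrivSqZeroExt.snd_inr,
        map_add, zero_add]

theorem exists_derivation (A : Type) [CommRing A] [Algebra ℂ A] (𝒞 : PolarizedClass)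
    (φ : ℂ →+* TrivSqZeroExt ℂ ℂ) (hφ : ∀ c, (φ c).fst = c)
    (H : StackIsomorphic (QuotientStack.proj trivGroup (trivAction (specC A))) (ModuliStack.proj 𝒞)) :
    ∃ D : A → A, D 0 = 0 ∧ (∀ a b, D (a + b) = D a + D b) ∧
      (∀ a b, D (a * b) = a * D b + b * D a) ∧
      (∀ c : ℂ, D (algebraMap ℂ A c) = algebraMap ℂ A (φ c).snd) := by
  obtain ⟨e, ⟨α⟩⟩ := H
  set U := e.functor.obj (QuotientStack.univ (specC A)) with hU
  have hterm : IsTerminal U := IsTerminal.isTerminalObj e.functor _ (QuotientStack.isTerminalUniv _)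
  let ψ : U.S ≅ specC A := α.app (QuotientStack.univ (specC A))
  let B := TrivSqZeroExt A A
  let T : SchC := Over.mk (Spec.map (CommRingCat.ofHom (twist A φ hφ)))
  let fstB : B →+* A := (TrivSqZeroExt.fstHom ℂ A A).toRingHom
  let inlB : A →+* B := TrivSqZeroExt.inlHom A A
  have hfi : fstB.comp inlB = RingHom.id A := by
    ext x
    rfl
  have hft : fstB.comp (twist A φ hφ) = algebraMap ℂ A := by
    ext x
    change (TrivSqZeroExt.inl (algebraMap ℂ A x) + TrivSqZeroExt.inr (algebraMap ℂ A (φ x).snd) :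
      TrivSqZeroExt A A).fst = _
    rw [TrivSqZeroExt.fst_add, TrivSqZeroExt.fst_inl, TrivSqZeroExt.fst_inr, add_zero]
  let i : specC A ⟶ T := Over.homMk (Spec.map (CommRingCat.ofHom fstB)) (by
    change Spec.map _ ≫ Spec.map _ = Spec.map _
    rw [← Spec.map_comp, ← CommRingCat.ofHom_comp, hft])
  let π : T.left ⟶ (specC A).left := Spec.map (CommRingCat.ofHom inlB)
  have hiπ : i.left ≫ π = 𝟙 _ := by
    change Spec.map _ ≫ Spec.map _ = _
    rw [← Spec.map_comp, ← CommRingCat.ofHom_comp, hfi]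
    exact Spec.map_id _
  obtain ⟨r, hr⟩ := exists_retraction U hterm T (ψ.hom ≫ i) (π ≫ ψ.inv.left) (by
    rw [Over.comp_left, Category.assoc, reassoc_of% hiπ, ← Over.comp_left, ψ.hom_inv_id]
    rfl) (by
    intro K _ _ _ s hs
    obtain ⟨f, rfl⟩ := Spec.map_surjective s
    -- `f : A[ε] → K` kills `ε`
    have hf : ∀ b : A, f.hom (TrivSqZeroExt.inr b : TrivSqZeroExt A A) = 0 := by
      intro b
      have : f.hom (TrivSqZeroExt.inr b : TrivSqZeroExt A A) *
          f.hom (TrivSqZeroExt.inr b : TrivSqZeroExt A A) = 0 := by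
        rw [← map_mul, TrivSqZeroExt.inr_mul_inr, map_zero]
      exact mul_self_eq_zero.mp this
    let s' : Spec (CommRingCat.of K) ⟶ (specC A).left :=
      Spec.map (CommRingCat.ofHom (f.hom.comp inlB))
    refine ⟨s' ≫ ψ.inv.left, ?_⟩
    rw [Category.assoc, ← Over.comp_left, ψ.inv_hom_id_assoc]
    change Spec.map _ ≫ Spec.map _ = _
    rw [← Spec.map_comp, ← CommRingCat.ofHom_comp]
    congr 1
    refine CommRingCat.hom_ext (RingHom.ext fun (x : TrivSqZeroExt A A) => ?_)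
    change f.hom (TrivSqZeroExt.inl x.fst : TrivSqZeroExt A A) = f.hom x
    have hx : f.hom (TrivSqZeroExt.inl x.fst + TrivSqZeroExt.inr x.snd : TrivSqZeroExt A A) =
        f.hom (TrivSqZeroExt.inl x.fst : TrivSqZeroExt A A) := by
      rw [map_add, hf, add_zero]
    rw [← hx, TrivSqZeroExt.inl_fst_add_inr_snd_eq])
  -- the retraction `T ⟶ Spec A`
  have hr' : i ≫ (r ≫ ψ.hom) = 𝟙 _ := by
    have : i = ψ.inv ≫ ψ.hom ≫ i := by simp
    rw [this]
    calc (ψ.inv ≫ ψ.hom ≫ i) ≫ r ≫ ψ.hom = ψ.inv ≫ ((ψ.hom ≫ i) ≫ r) ≫ ψ.hom := by simp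
      _ = 𝟙 _ := by rw [hr]; simp
  obtain ⟨g, hg⟩ := Spec.map_surjective (r ≫ ψ.hom).left
  have hg1 : ∀ x : A, (g.hom x : TrivSqZeroExt A A).fst = x := by
    intro x
    have h1 := congr_arg Over.Hom.left hr'
    rw [Over.comp_left, ← hg] at h1
    change Spec.map _ ≫ Spec.map _ = 𝟙 _ at h1
    rw [← Spec.map_comp, ← Spec.map_id] at h1
    have h2 := Spec.map_injective h1
    exact congr_arg (fun k => k.hom x) h2
  have hg2 : ∀ c : ℂ, g.hom (algebraMap ℂ A c) = twist A φ hφ c := by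
    intro c
    have h1 := Over.w (r ≫ ψ.hom)
    rw [← hg] at h1
    change Spec.map _ ≫ Spec.map _ = Spec.map _ at h1
    rw [← Spec.map_comp] at h1
    have h2 := Spec.map_injective h1
    exact congr_arg (fun k => k.hom c) h2
  refine ⟨fun a => (g.hom a : TrivSqZeroExt A A).snd, ?_, ?_, ?_, ?_⟩
  · change (g.hom (0 : A) : TrivSqZeroExt A A).snd = 0
    rw [map_zero]
    rfl
  · intro a b
    change (g.hom (a + b) : TrivSqZeroExt A A).snd = _
    rw [map_add]
    rfl
  · intro a b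
    change (g.hom (a * b) : TrivSqZeroExt A A).snd = _
    rw [map_mul]
    have := TrivSqZeroExt.snd_mul (R := A) (M := A) (g.hom a) (g.hom b)
    rw [hg1, hg1] at this
    rw [this, smul_eq_mul, MulOpposite.smul_eq_mul_unop, MulOpposite.unop_op, mul_comm b]
  · intro c
    change (g.hom (algebraMap ℂ A c) : TrivSqZeroExt A A).snd = _
    rw [hg2]
    change (TrivSqZeroExt.inl (algebraMap ℂ A c) + TrivSqZeroExt.inr (algebraMap ℂ A (φ c).snd) :
      TrivSqZeroExt A A).snd = _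
    rw [TrivSqZeroExt.snd_add, TrivSqZeroExt.snd_inl, TrivSqZeroExt.snd_inr, zero_add]

end Pool.Agent.J6H56.QStack
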