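import Pool.Agent.J6H56.QStack.LineBundle

open CategoryTheory Limits AlgebraicGeometry TopologicalSpace Opposite

namespace Pool.Agent.J6H56.QStack

universe u

/-- The category of schemes over `ℂ`. -/
abbrev SchC : Type 1 := Over (Spec (CommRingCat.of ℂ))

/-- A polarized manifold over an (algebraically closed) field `K`: a pair `(F, H)` with `F` a
connected smooth projective `K`-variety (`F ⟶ Spec K` is smooth and proper, and `F` carries the
ample invertible sheaf `H`). -/
structure PolarizedManifold (K : Type) [Field K] where
  /-- the variety -/
  F : Scheme.{0}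
  /-- its structure morphism -/
  str : F ⟶ Spec (CommRingCat.of K)
  /-- the polarization -/
  H : LineBundle F
  smooth : Smooth str
  proper : IsProper str
  connected : ConnectedSpace F
  ample : H.IsAmple

/-- Isomorphism of polarized manifolds `(F, H) ≅ (F', H')`: an isomorphism `φ : F ≅ F'` over `K`
with `φ^* H' ≅ H`. -/
def PolarizedManifold.Isomorphic {K : Type} [Field K] (M M' : PolarizedManifold K) : Prop :=
  ∃ φ : M.F ≅ M'.F, φ.hom ≫ M'.str = M.str ∧ (M'.H.pullback φ.hom).Iso M.H

/-- A class of polarized manifolds. For every algebraically closed extension field `K` of `ℂ` it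
says which polarized manifolds over `K` belong to the class (so that one can say which geometric
fibres are allowed; for `K = ℂ` these are the complex polarized manifolds of the class), and it is
closed under isomorphism. The reading in which only the fibres over complex points are tested is
the special case in which everything is allowed over the other fields `K`. -/
structure PolarizedClass where
  /-- membership in the class -/
  mem : ∀ (K : Type) [Field K] [IsAlgClosed K] [Algebra ℂ K], PolarizedManifold K → Prop
  closed : ∀ (K : Type) [Field K] [IsAlgClosed K] [Algebra ℂ K] (M M' : PolarizedManifold K),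
    M.Isomorphic M' → mem K M → mem K M'

/-- A polarized family over a scheme `S`: a smooth projective morphism `f : X ⟶ S` and an
`f`-ample invertible sheaf `L` on `X` (`f` is smooth and proper and `L` is relatively ample). -/
structure PolarizedFamily (S : Scheme.{0}) where
  /-- total space -/
  X : Scheme.{0}
  /-- structure morphism -/
  f : X ⟶ S
  /-- the relatively ample invertible sheaf -/
  L : LineBundle X
  smooth : Smooth f
  proper : IsProper f
  ample : L.IsRelAmple f

/-- Every geometric fibre `(X_s, L|X_s)` of the polarized family over the `ℂ`-scheme `S` is in the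
class `𝒞`: for every algebraically closed extension `K` of `ℂ` and every `K`-point
`s : Spec K ⟶ S` over `ℂ`, there is a member `(F, H)` of the class over `K`, with a map `j : F ⟶ X`
making `F` the fibre product of `X` and `Spec K` over `S`, and with `j^* L ≅ H`. -/
def PolarizedFamily.FibresIn {S : SchC} (E : PolarizedFamily S.left) (𝒞 : PolarizedClass) : Prop :=
  ∀ (K : Type) [Field K] [IsAlgClosed K] [Algebra ℂ K] (s : Spec (CommRingCat.of K) ⟶ S.left),
    s ≫ S.hom = Spec.map (CommRingCat.ofHom (algebraMap ℂ K)) →
    ∃ (M : PolarizedManifold K) (j : M.F ⟶ E.X),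
      𝒞.mem K M ∧ IsPullback j M.str E.f s ∧ (E.L.pullback j).Iso M.H

/-- The objects of the moduli stack `ℳ_𝒞`: a `ℂ`-scheme `S` and a polarized family over `S` all
of whose geometric fibres are in `𝒞`. -/
structure ModuliStack (𝒞 : PolarizedClass) where
  /-- the base -/
  S : SchC
  /-- the family -/
  E : PolarizedFamily S.left
  fibres : E.FibresIn 𝒞

namespace ModuliStack

variable {𝒞 : PolarizedClass}

/-- The morphisms of the moduli stack: a morphism of bases `h : S' ⟶ S` over `ℂ` and an isomorphism
of `X'` with `X ×_S S'` over `S'` (a cartesian square with top morphism `g : X' ⟶ X`), such that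
`g^* L ≅ L' ⊗ f'^* B` for some invertible sheaf `B` on `S'`. -/
@[ext]
structure Hom (A' A : ModuliStack 𝒞) where
  /-- morphism of bases -/
  h : A'.S ⟶ A.S
  /-- morphism of total spaces -/
  g : A'.E.X ⟶ A.E.X
  cartesian : IsPullback g A'.E.f A.E.f h.left
  twist : ∃ B : LineBundle A'.S.left, (A.E.L.pullback g).Iso (A'.E.L.tensor (B.pullback A'.E.f))

/-- identity -/
noncomputable def Hom.id (A : ModuliStack 𝒞) : Hom A A where
  h := 𝟙 _
  g := 𝟙 _
  cartesian := by
    rw [Over.id_left]
    exact IsPullback.of_horiz_isIso ⟨by simp⟩
  twist := ⟨LineBundle.trivial _, by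
    rw [LineBundle.pullback_trivial, LineBundle.pullback_id]
    exact (LineBundle.tensor_trivial_iso _).symm⟩

/-- composition -/
noncomputable def Hom.comp {A B C : ModuliStack 𝒞} (p : Hom A B) (q : Hom B C) : Hom A C where
  h := p.h ≫ q.h
  g := p.g ≫ q.g
  cartesian := by
    simpa using p.cartesian.paste_horiz q.cartesian
  twist := by
    obtain ⟨B₁, e₁⟩ := p.twist
    obtain ⟨B₂, e₂⟩ := q.twist
    refine ⟨B₁.tensor (B₂.pullback p.h.left), ?_⟩
    have e := (e₂.pullback p.g)
    rw [LineBundle.pullback_tensor, LineBundle.pullback_pullback, LineBundle.pullback_pullback,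
      p.cartesian.w] at e
    refine e.trans ((e₁.tensor (LineBundle.Iso.refl _)).trans ?_)
    rw [LineBundle.pullback_tensor, LineBundle.pullback_pullback]
    exact LineBundle.tensor_assoc_iso _ _ _

/-- The moduli stack `ℳ_𝒞` as a category. -/
noncomputable instance : Category (ModuliStack 𝒞) where
  Hom := Hom
  id := Hom.id
  comp := Hom.comp
  id_comp f := by
    ext
    · simp [Hom.comp, Hom.id]
    · simp [Hom.comp, Hom.id]
  comp_id f := by
    ext
    · simp [Hom.comp, Hom.id]
    · simp [Hom.comp, Hom.id]
  assoc f g h := by
    ext
    · simp [Hom.comp]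
    · simp [Hom.comp]

/-- The projection of the moduli stack to the category of `ℂ`-schemes. -/
noncomputable def proj (𝒞 : PolarizedClass) : ModuliStack 𝒞 ⥤ SchC where
  obj A := A.S
  map f := f.h

end ModuliStack

end Pool.Agent.J6H56.QStack
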