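import Pool.Agent.J6H56.QStack.Moduli

open CategoryTheory Limits AlgebraicGeometry TopologicalSpace Opposite

namespace Pool.Agent.J6H56.QStack

/-- A structure of group scheme on the `ℂ`-scheme `G`, given by its functor of points: a group
structure on the set of `T`-points of `G` for every `ℂ`-scheme `T`, natural in `T`. -/
structure GroupStructure (G : SchC) where
  /-- the group structure on the `T`-points -/
  group : ∀ T : SchC, Group (T ⟶ G)
  natural : ∀ (T' T : SchC) (u : T' ⟶ T) (a b : T ⟶ G),
    u ≫ (group T).mul a b = (group T').mul (u ≫ a) (u ≫ b)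

/-- An action of a group scheme `G` on a `ℂ`-scheme `X`: an action of the group of `T`-points of `G`
on the set of `T`-points of `X` for every `ℂ`-scheme `T`, natural in `T`. -/
structure GroupAction {G : SchC} (γ : GroupStructure G) (X : SchC) where
  /-- the action on `T`-points -/
  smul : ∀ T : SchC, (T ⟶ G) → (T ⟶ X) → (T ⟶ X)
  one_smul : ∀ (T : SchC) (x : T ⟶ X), smul T (γ.group T).one x = x
  mul_smul : ∀ (T : SchC) (a b : T ⟶ G) (x : T ⟶ X),
    smul T ((γ.group T).mul a b) x = smul T a (smul T b x)
  natural : ∀ (T' T : SchC) (u : T' ⟶ T) (a : T ⟶ G) (x : T ⟶ X),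
    u ≫ smul T a x = smul T' (u ≫ a) (u ≫ x)

/-- `G` is a linear algebraic group over `ℂ` (as a scheme): affine and of finite type over `ℂ`. -/
structure IsLinearAlgebraic (G : SchC) : Prop where
  affine : IsAffineHom G.hom
  finiteType : LocallyOfFiniteType G.hom

/-- `Z` is a quasi-projective scheme over `ℂ`: it is separated and of finite type over `ℂ` and
carries an ample invertible sheaf. -/
structure IsQuasiProjective (Z : SchC) : Prop where
  quasiCompact : QuasiCompact Z.hom
  separated : IsSeparated Z.hom
  finiteType : LocallyOfFiniteType Z.hom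
  ample : ∃ L : LineBundle Z.left, L.IsAmple

/-- The objects of the quotient stack `[Z/G]` over a `ℂ`-scheme `S`: a principal `G`-bundle
`p : P ⟶ S` (an action of `G` on `P` and a flat, surjective, locally finitely presented invariant
morphism `p` such that two points of `P` with the same image in `S` differ by a unique point of `G`,
that is, `G × P ≅ P ×_S P`) together with a `G`-equivariant morphism `φ : P ⟶ Z`. -/
structure QuotientStack {G : SchC} (γ : GroupStructure G) {Z : SchC} (α : GroupAction γ Z) where
  /-- the base -/
  S : SchC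
  /-- the total space of the principal bundle -/
  P : SchC
  /-- the action of `G` on `P` -/
  action : GroupAction γ P
  /-- the projection of the bundle -/
  p : P ⟶ S
  flat : Flat p.left
  surjective : Surjective p.left
  locallyOfFinitePresentation : LocallyOfFinitePresentation p.left
  invariant : ∀ (T : SchC) (a : T ⟶ G) (x : T ⟶ P), action.smul T a x ≫ p = x ≫ p
  simplyTransitive : ∀ (T : SchC) (x y : T ⟶ P), x ≫ p = y ≫ p →
    ∃! a : T ⟶ G, action.smul T a x = y
  /-- the equivariant morphism to `Z` -/
  φ : P ⟶ Z
  equivariant : ∀ (T : SchC) (a : T ⟶ G) (x : T ⟶ P),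
    action.smul T a x ≫ φ = α.smul T a (x ≫ φ)

namespace QuotientStack

variable {G : SchC} {γ : GroupStructure G} {Z : SchC} {α : GroupAction γ Z}

/-- The morphisms of the quotient stack `[Z/G]`: a morphism of bases `h : S' ⟶ S` over `ℂ` and a
`G`-equivariant morphism `k : P' ⟶ P` making the square over `h` cartesian, with `k ≫ φ = φ'`. -/
@[ext]
structure Hom (A' A : QuotientStack γ α) where
  /-- morphism of bases -/
  h : A'.S ⟶ A.S
  /-- morphism of total spaces -/
  k : A'.P ⟶ A.P
  equivariant : ∀ (T : SchC) (a : T ⟶ G) (x : T ⟶ A'.P),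
    A'.action.smul T a x ≫ k = A.action.smul T a (x ≫ k)
  cartesian : IsPullback k A'.p A.p h
  w : k ≫ A.φ = A'.φ

/-- identity -/
noncomputable def Hom.id (A : QuotientStack γ α) : Hom A A where
  h := 𝟙 _
  k := 𝟙 _
  equivariant _ _ _ := by simp
  cartesian := IsPullback.of_horiz_isIso ⟨by simp⟩
  w := by simp

/-- composition -/
noncomputable def Hom.comp {A B C : QuotientStack γ α} (p : Hom A B) (q : Hom B C) : Hom A C where
  h := p.h ≫ q.h
  k := p.k ≫ q.k
  equivariant T a x := by
    rw [← Category.assoc, p.equivariant, q.equivariant, Category.assoc]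
  cartesian := p.cartesian.paste_horiz q.cartesian
  w := by rw [Category.assoc, q.w, p.w]

/-- The quotient stack `[Z/G]` as a category. -/
noncomputable instance : Category (QuotientStack γ α) where
  Hom := Hom
  id := Hom.id
  comp := Hom.comp
  id_comp f := by
    ext
    · simp [Hom.comp, Hom.id]
    · simp [Hom.comp, Hom.id]
  comp_id f := by
    ext
    · simp [Hom.comp, Hom.id]
    · simp [Hom.comp, Hom.id]
  assoc f g h := by
    ext
    · simp [Hom.comp]
    · simp [Hom.comp]

variable (γ α) in
/-- The projection of the quotient stack to the category of `ℂ`-schemes. -/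
noncomputable def proj : QuotientStack γ α ⥤ SchC where
  obj A := A.S
  map f := f.h

end QuotientStack

/-- Two categories over the category of `ℂ`-schemes (such as two stacks) are isomorphic: there is
an equivalence of categories compatible, up to isomorphism of functors, with the projections. -/
def StackIsomorphic {𝒳 𝒴 : Type 1} [Category.{0} 𝒳] [Category.{0} 𝒴] (p : 𝒳 ⥤ SchC)
    (q : 𝒴 ⥤ SchC) : Prop :=
  ∃ e : 𝒳 ≌ 𝒴, Nonempty (e.functor ⋙ q ≅ p)

end Pool.Agent.J6H56.QStack
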