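import Pool.Agent.J6H56.QStack.Terminal

open CategoryTheory Limits AlgebraicGeometry TopologicalSpace Opposite

namespace Pool.Agent.J6H56.QStack

/-- pulling back a polarized family along any morphism of schemes -/
noncomputable def PolarizedFamily.baseChange {S T : Scheme.{0}} (E : PolarizedFamily S) (π : T ⟶ S) :
    PolarizedFamily T where
  X := pullback E.f π
  f := pullback.snd E.f π
  L := E.L.pullback (pullback.fst E.f π)
  smooth := by
    have := E.smooth
    infer_instance
  proper := by
    have := E.proper
    infer_instance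
  ample := E.ample.of_isPullback (IsPullback.of_hasPullback E.f π)

/-- The key lemma: if `U` is a terminal object of the moduli stack, with base `S`, then every
thickening `i : S ⟶ T` over `ℂ` with the same geometric points which has a retraction `π : T ⟶ S`
that is only a morphism of schemes also has a retraction over `ℂ`. -/
theorem exists_retraction {𝒞 : PolarizedClass} (U : ModuliStack 𝒞) (hU : IsTerminal U)
    (T : SchC) (i : U.S ⟶ T) (π : T.left ⟶ U.S.left) (hiπ : i.left ≫ π = 𝟙 _)
    (hgeo : ∀ (K : Type) [Field K] [IsAlgClosed K] [Algebra ℂ K]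
      (s : Spec (CommRingCat.of K) ⟶ T.left),
      s ≫ T.hom = Spec.map (CommRingCat.ofHom (algebraMap ℂ K)) →
      ∃ s' : Spec (CommRingCat.of K) ⟶ U.S.left, s' ≫ i.left = s) :
    ∃ r : T ⟶ U.S, i ≫ r = 𝟙 _ := by
  -- the map `X ⟶ X_T`
  have hj : 𝟙 U.E.X ≫ U.E.f = (U.E.f ≫ i.left) ≫ π := by
    rw [Category.assoc, hiπ, Category.comp_id, Category.id_comp]
  let j : U.E.X ⟶ pullback U.E.f π := pullback.lift (𝟙 _) (U.E.f ≫ i.left) hj
  have hj1 : j ≫ pullback.fst U.E.f π = 𝟙 _ := pullback.lift_fst _ _ _
  have hj2 : j ≫ pullback.snd U.E.f π = U.E.f ≫ i.left := pullback.lift_snd _ _ _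
  have hsq : IsPullback j U.E.f (pullback.snd U.E.f π) i.left := by
    refine IsPullback.of_right (h₁₂ := pullback.fst U.E.f π) (v₁₃ := U.E.f) (h₂₂ := π) ?_ hj2
      (IsPullback.of_hasPullback U.E.f π)
    rw [hj1, hiπ]
    exact IsPullback.of_horiz_isIso ⟨by simp⟩
  have hLj : (U.E.L.pullback (pullback.fst U.E.f π)).pullback j = U.E.L := by
    rw [LineBundle.pullback_pullback, hj1, LineBundle.pullback_id]
  let A : ModuliStack 𝒞 :=
    { S := T
      E := U.E.baseChange π
      fibres := by
        intro K _ _ _ s hs
        obtain ⟨s', hs'⟩ := hgeo K s hs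
        have hs'' : s' ≫ U.S.hom = Spec.map (CommRingCat.ofHom (algebraMap ℂ K)) := by
          rw [← hs, ← hs', Category.assoc, Over.w]
        obtain ⟨M, m, hM, hsqM, hLM⟩ := U.fibres K s' hs''
        refine ⟨M, m ≫ j, hM, ?_, ?_⟩
        · have := hsqM.paste_horiz hsq
          rw [hs'] at this
          exact this
        · have : ((U.E.L.pullback (pullback.fst U.E.f π)).pullback (m ≫ j)) = U.E.L.pullback m := by
            rw [← LineBundle.pullback_pullback, hLj]
          change ((U.E.L.pullback (pullback.fst U.E.f π)).pullback (m ≫ j)).Iso M.H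
          rw [this]
          exact hLM }
  let f : U ⟶ A :=
    { h := i
      g := j
      cartesian := hsq
      twist := ⟨LineBundle.trivial _, by
        rw [LineBundle.pullback_trivial]
        change ((U.E.L.pullback (pullback.fst U.E.f π)).pullback j).Iso _
        rw [hLj]
        exact (LineBundle.tensor_trivial_iso _).symm⟩ }
  have e : f ≫ hU.from A = 𝟙 U := hU.hom_ext _ _
  refine ⟨(hU.from A).h, ?_⟩
  exact congr_arg ModuliStack.Hom.h e

end Pool.Agent.J6H56.QStack
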