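import Pool.Agent.J6H56.QStack.Quotient

open CategoryTheory Limits AlgebraicGeometry TopologicalSpace Opposite

namespace Pool.Agent.J6H56.QStack

/-- The `ℂ`-scheme `Spec ℂ`. -/
noncomputable def pt : SchC := Over.mk (𝟙 (Spec (CommRingCat.of ℂ)))

lemma pt_hom_ext {T : SchC} (a b : T ⟶ pt) : a = b := by
  have h : ∀ c : T ⟶ pt, c.left = T.hom := fun c => by
    have := Over.w c
    exact (Category.comp_id c.left).symm.trans this
  ext
  rw [h a, h b]

/-- The trivial group scheme. -/
noncomputable def trivGroup : GroupStructure pt where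
  group T :=
    { mul := fun a _ => a
      mul_assoc := fun _ _ _ => rfl
      one := Over.homMk T.hom
      one_mul := fun _ => pt_hom_ext _ _
      mul_one := fun _ => pt_hom_ext _ _
      inv := id
      inv_mul_cancel := fun _ => pt_hom_ext _ _ }
  natural _ _ _ _ _ := pt_hom_ext _ _

/-- The (only) action of the trivial group scheme. -/
noncomputable def trivAction (Z : SchC) : GroupAction trivGroup Z where
  smul _ _ x := x
  one_smul _ _ := rfl
  mul_smul _ _ _ _ := rfl
  natural _ _ _ _ _ := rfl

lemma GroupAction.smul_eq {X : SchC} (β : GroupAction trivGroup X) (T : SchC) (a : T ⟶ pt)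
    (x : T ⟶ X) : β.smul T a x = x := by
  rw [pt_hom_ext a (trivGroup.group T).one]
  exact β.one_smul T x

namespace QuotientStack

variable {Z : SchC}

lemma isIso_p (A : QuotientStack trivGroup (trivAction Z)) : IsIso A.p := by
  have hmono : Mono A.p := by
    refine ⟨fun {T} x y hxy => ?_⟩
    obtain ⟨a, ha, -⟩ := A.simplyTransitive T x y hxy
    rw [GroupAction.smul_eq] at ha
    exact ha
  have : Mono A.p.left := inferInstance
  have := A.flat
  have := A.surjective
  have := A.locallyOfFinitePresentation
  have h1 : IsOpenImmersion A.p.left := IsOpenImmersion.of_flat_of_mono _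
  have h2 : IsIso A.p.left := by
    have : Epi A.p.left.base := by
      rw [TopCat.epi_iff_surjective]
      exact A.p.left.surjective
    exact IsOpenImmersion.isIso _
  have : IsIso ((Over.forget _).map A.p) := h2
  exact isIso_of_reflects_iso A.p (Over.forget _)

/-- The object of `[Z/1]` over `Z` given by the trivial bundle. -/
noncomputable def univ (Z : SchC) : QuotientStack trivGroup (trivAction Z) where
  S := Z
  P := Z
  action := trivAction Z
  p := 𝟙 _
  flat := by rw [Over.id_left]; infer_instance
  surjective := by rw [Over.id_left]; infer_instance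
  locallyOfFinitePresentation := by rw [Over.id_left]; infer_instance
  invariant _ _ _ := rfl
  simplyTransitive T x y h := by
    rw [Category.comp_id, Category.comp_id] at h
    exact ⟨Over.homMk T.hom, h, fun _ _ => pt_hom_ext _ _⟩
  φ := 𝟙 _
  equivariant _ _ _ := rfl

/-- the morphism to the universal object -/
noncomputable def toUniv (Z : SchC) (A : QuotientStack trivGroup (trivAction Z)) : A ⟶ univ Z :=
  haveI := A.isIso_p
  { h := inv A.p ≫ A.φ
    k := A.φ
    equivariant := A.equivariant
    cartesian := by
      have : IsIso (univ Z).p := inferInstanceAs (IsIso (𝟙 Z))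
      refine IsPullback.of_vert_isIso ⟨?_⟩
      change A.φ ≫ 𝟙 Z = _
      simp
    w := by
      change A.φ ≫ 𝟙 Z = _
      simp }

/-- `[Z/1]` has a terminal object, over `Z`. -/
noncomputable def isTerminalUniv (Z : SchC) : IsTerminal (univ Z) :=
  IsTerminal.ofUniqueHom (toUniv Z) (by
    intro A m
    have := A.isIso_p
    have h1 : Hom.k m = A.φ := (Category.comp_id (X := A.P) (Y := Z) (Hom.k m)).symm.trans (Hom.w m)
    refine Hom.ext ?_ h1
    have h2 : A.φ = A.p ≫ Hom.h m :=
      ((h1.symm.trans (Category.comp_id (X := A.P) (Y := Z) (Hom.k m)).symm).trans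
        (Hom.cartesian m).w)
    have h3 : ∀ h' : A.S ⟶ Z, A.φ = A.p ≫ h' → h' = inv A.p ≫ A.φ := by
      intro h' e
      rw [e]
      simp
    exact h3 (Hom.h m) h2)

end QuotientStack

end Pool.Agent.J6H56.QStack
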